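import Mathlib
import Pool.Agent.N671.OPN.Basic

/-!
# Ridout's theorem for families of polynomials
-/

set_option autoImplicit false

namespace Pool.Agent.V5helper76.SP

open Polynomial Finset
open Pool.Agent.Y670.RD
open Pool.Agent.N671.OPN (spart spart_pos spart_mul spart_prod spart_one spart_dvd prod_padicNorm)

variable {S : Finset ℕ}

/-- the logarithm of the `S`-part -/
noncomputable def Lam (S : Finset ℕ) (y : ℤ) : ℝ := Real.log (spart S y.natAbs)

lemma Lam_nonneg (hS : ∀ p ∈ S, p.Prime) (y : ℤ) : 0 ≤ Lam S y := by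
  unfold Lam
  apply Real.log_nonneg
  exact_mod_cast spart_pos hS _

lemma Lam_zero : Lam S 0 = 0 := by
  unfold Lam spart
  simp

lemma Lam_mul (hS : ∀ p ∈ S, p.Prime) {y z : ℤ} (hy : y ≠ 0) (hz : z ≠ 0) :
    Lam S (y * z) = Lam S y + Lam S z := by
  unfold Lam
  rw [Int.natAbs_mul, spart_mul (Int.natAbs_ne_zero.mpr hy) (Int.natAbs_ne_zero.mpr hz),
    Nat.cast_mul, Real.log_mul]
  · exact_mod_cast (spart_pos hS _).ne'
  · exact_mod_cast (spart_pos hS _).ne'

lemma Lam_mul_le (hS : ∀ p ∈ S, p.Prime) (y z : ℤ) : Lam S (y * z) ≤ Lam S y + Lam S z := by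
  rcases eq_or_ne y 0 with rfl | hy
  · rw [zero_mul, Lam_zero, zero_add]; exact Lam_nonneg hS z
  rcases eq_or_ne z 0 with rfl | hz
  · rw [mul_zero, Lam_zero, add_zero]; exact Lam_nonneg hS y
  exact (Lam_mul hS hy hz).le

lemma Lam_le_mul (hS : ∀ p ∈ S, p.Prime) {y : ℤ} (hy : y ≠ 0) (z : ℤ) : Lam S z ≤ Lam S (y * z) := by
  rcases eq_or_ne z 0 with rfl | hz
  · rw [mul_zero]
  rw [Lam_mul hS hy hz]
  linarith [Lam_nonneg hS y]

lemma Lam_prod (hS : ∀ p ∈ S, p.Prime) {ι : Type*} (A : Finset ι) (f : ι → ℤ)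
    (hf : ∀ i ∈ A, f i ≠ 0) : Lam S (∏ i ∈ A, f i) = ∑ i ∈ A, Lam S (f i) := by
  classical
  induction A using Finset.induction_on with
  | empty => simp [Lam, spart_one]
  | insert a A ha ih =>
    rw [prod_insert ha, sum_insert ha, Lam_mul hS (hf a (mem_insert_self _ _)), ih]
    · intro i hi; exact hf i (mem_insert_of_mem hi)
    · exact prod_ne_zero_iff.2 fun i hi => hf i (mem_insert_of_mem hi)

lemma Lam_norm (hS : ∀ p ∈ S, p.Prime) {y : ℤ} (hy : y ≠ 0) :
    (∏ p ∈ S, (padicNorm p (y : ℚ) : ℝ)) * Real.exp (Lam S y) = 1 := by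
  have h := prod_padicNorm hS (n := y.natAbs) (Int.natAbs_ne_zero.mpr hy)
  unfold Lam
  rw [Real.exp_log (by exact_mod_cast spart_pos hS _)]
  rw [← h]
  congr 1
  refine prod_congr rfl fun p _ => ?_
  rcases Int.natAbs_eq y with h1 | h1
  · rw [← h1]
  · have h2 : ((y.natAbs : ℤ) : ℚ) = - (y : ℚ) := by
      rw [h1]; simp
    rw [h2, padicNorm.neg]

lemma fv_one (G : ℤ[X]) (x : ℤ) : fv G.natDegree G x 1 = G.eval x := by
  unfold fv
  rw [eval_eq_sum_range]
  simp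

/-- Ridout's theorem: the `S`-part of `G(x)` for squarefree `G` -/
lemma rid_poly (hS : ∀ p ∈ S, p.Prime) (G : ℤ[X]) (hG : Squarefree (G.map (Int.castRingHom ℚ)))
    {ε : ℝ} (hε : 0 < ε) :
    ∃ C : ℝ, 0 ≤ C ∧ ∀ x : ℤ, x ≠ 0 → Lam S (G.eval x) ≤ (2 + ε) * Real.log |(x : ℝ)| + C := by
  rcases Nat.eq_zero_or_pos G.natDegree with hd | hd
  · obtain ⟨c, hc⟩ := natDegree_eq_zero.1 hd
    refine ⟨Lam S c, Lam_nonneg hS _, fun x hx => ?_⟩
    rw [← hc, eval_C]
    have h1 : (1 : ℝ) ≤ |(x : ℝ)| := by exact_mod_cast Int.one_le_abs hx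
    have h2 := Real.log_nonneg h1
    have : 0 ≤ (2 + ε) * Real.log |(x : ℝ)| := by positivity
    linarith
  · obtain ⟨c, hc, h⟩ := rid_form' G hG hd S hS ε hε
    set K : ℝ := (∑ i ∈ range (G.natDegree + 1), |(G.coeff i : ℝ)|) with hK
    refine ⟨|Real.log K - Real.log c|, abs_nonneg _, fun x hx => ?_⟩
    have h1 : (1 : ℝ) ≤ |(x : ℝ)| := by exact_mod_cast Int.one_le_abs hx
    have h1' : (0 : ℝ) < |(x : ℝ)| := by linarith
    have h2 := Real.log_nonneg h1
    rcases eq_or_ne (G.eval x) 0 with h0 | h0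
    · rw [h0, Lam_zero]; positivity
    have hmax : max |(x : ℝ)| |((1 : ℤ) : ℝ)| = |(x : ℝ)| := by
      rw [Int.cast_one, abs_one]; exact max_eq_left h1
    have h3 := h x 1 isCoprime_one_right (by rw [fv_one]; exact h0)
    have h4 := fv_le G.natDegree G x 1
    rw [fv_one, hmax] at h3
    rw [fv_one, hmax, ← hK] at h4
    have h5 := Lam_norm hS h0
    set P := ∏ p ∈ S, (padicNorm p ((G.eval x : ℤ) : ℚ) : ℝ) with hP
    have hE : 0 < Real.exp (Lam S (G.eval x)) := Real.exp_pos _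
    have h6 : c * |(x : ℝ)| ^ ((G.natDegree : ℝ) - 2 - ε) * Real.exp (Lam S (G.eval x)) ≤
        K * |(x : ℝ)| ^ (G.natDegree) := by
      calc c * |(x : ℝ)| ^ ((G.natDegree : ℝ) - 2 - ε) * Real.exp (Lam S (G.eval x))
          ≤ (|((G.eval x : ℤ) : ℝ)| * P) * Real.exp (Lam S (G.eval x)) :=
            mul_le_mul_of_nonneg_right h3 hE.le
        _ = |((G.eval x : ℤ) : ℝ)| * (P * Real.exp (Lam S (G.eval x))) := by ring
        _ ≤ _ := by rw [h5, mul_one]; exact h4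
    have hx0 : (0 : ℝ) < |(x : ℝ)| ^ ((G.natDegree : ℝ) - 2 - ε) := Real.rpow_pos_of_pos h1' _
    have hxd : (0 : ℝ) < |(x : ℝ)| ^ (G.natDegree) := by positivity
    have hK0 : 0 < K := by
      by_contra hcon
      have : 0 < K * |(x : ℝ)| ^ (G.natDegree) := lt_of_lt_of_le (by positivity) h6
      nlinarith
    have h7 := Real.log_le_log (by positivity) h6
    rw [Real.log_mul (by positivity) hE.ne', Real.log_mul hc.ne' hx0.ne', Real.log_exp,
      Real.log_mul hK0.ne' hxd.ne', Real.log_rpow h1', Real.log_pow] at h7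
    have h8 := le_abs_self (Real.log K - Real.log c)
    linarith

/-- Ridout's theorem for families -/
lemma fam (hS : ∀ p ∈ S, p.Prime) {ι : Type*} (J : Finset ι) (g : ι → ℤ[X])
    (hirr : ∀ j ∈ J, Irreducible ((g j).map (Int.castRingHom ℚ)))
    (hna : ∀ i ∈ J, ∀ j ∈ J, i ≠ j →
      ¬ Associated ((g i).map (Int.castRingHom ℚ)) ((g j).map (Int.castRingHom ℚ)))
    {ε : ℝ} (hε : 0 < ε) :
    ∃ C : ℝ, 0 ≤ C ∧ ∀ x : ℤ, x ≠ 0 →
      ∑ j ∈ J, Lam S ((g j).eval x) ≤ (2 + ε) * Real.log |(x : ℝ)| + C := by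
  classical
  have key : ∀ J' : Finset ι, ∃ C : ℝ, 0 ≤ C ∧ (J' ⊆ J → ∀ x : ℤ, x ≠ 0 →
      Lam S ((∏ j ∈ J', g j).eval x) ≤ (2 + ε) * Real.log |(x : ℝ)| + C) := by
    intro J'
    by_cases hJ : J' ⊆ J
    · have hsq : Squarefree ((∏ j ∈ J', g j).map (Int.castRingHom ℚ)) := by
        rw [Polynomial.map_prod]
        apply Finset.squarefree_prod_of_pairwise_isCoprime
        · intro i hi j hj hij
          refine (((hirr i (hJ hi)).coprime_iff_not_dvd).2 ?_).isRelPrime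
          intro hdvd
          exact hna i (hJ hi) j (hJ hj) hij
            ((hirr i (hJ hi)).associated_of_dvd (hirr j (hJ hj)) hdvd)
        · intro i hi
          exact (hirr i (hJ hi)).squarefree
      obtain ⟨C, hC, h⟩ := rid_poly hS _ hsq hε
      exact ⟨C, hC, fun _ => h⟩
    · exact ⟨0, le_rfl, fun h => absurd h hJ⟩
  choose C hC0 hC using key
  refine ⟨∑ J' ∈ J.powerset, C J', sum_nonneg fun J' _ => hC0 J', fun x hx => ?_⟩
  set J' := J.filter fun j => (g j).eval x ≠ 0 with hJ'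
  have h1 : ∑ j ∈ J, Lam S ((g j).eval x) = ∑ j ∈ J', Lam S ((g j).eval x) := by
    rw [hJ', sum_filter]
    refine sum_congr rfl fun j _ => ?_
    split_ifs with h
    · rfl
    · rw [not_not.1 h, Lam_zero]
  rw [h1, ← Lam_prod hS J' _ (fun j hj => (mem_filter.1 hj).2), ← eval_prod]
  have h2 := hC J' (filter_subset _ _) x hx
  have h3 : C J' ≤ ∑ J' ∈ J.powerset, C J' :=
    single_le_sum (fun J' _ => hC0 J') (mem_powerset.2 (filter_subset _ _))
  linarith

/-! ### affine substitutions -/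

/-- `s ^ d * g ((a X + c) / s)` -/
noncomputable def aff (g : ℤ[X]) (s a c : ℤ) : ℤ[X] := (g.scaleRoots s).comp (C a * X + C c)

lemma aff_eval₂ {K : Type*} [Field K] [CharZero K] (g : ℤ[X]) {s : ℤ} (hs : s ≠ 0) (a c : ℤ) (z : K) :
    (aff g s a c).eval₂ (Int.castRingHom K) z =
      (s : K) ^ g.natDegree * g.eval₂ (Int.castRingHom K) ((a * z + c) / s) := by
  have hs' : (s : K) ≠ 0 := by exact_mod_cast hs
  unfold aff
  rw [eval₂_comp]
  have h1 : eval₂ (Int.castRingHom K) z (C a * X + C c) = (Int.castRingHom K) s * ((a * z + c) / s) := by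
    rw [eval₂_add, eval₂_mul, eval₂_C, eval₂_C, eval₂_X]
    simp only [eq_intCast]
    field_simp
  rw [h1, scaleRoots_eval₂_mul]
  simp

lemma aff_eval (g : ℤ[X]) {s a c x y : ℤ} (h : s * y = a * x + c) :
    (aff g s a c).eval x = s ^ g.natDegree * g.eval y := by
  unfold aff
  rw [eval_comp]
  have h1 : eval x (C a * X + C c) = s * y := by
    simp [h]
  rw [h1]
  have := scaleRoots_eval₂_mul (p := g) (RingHom.id ℤ) y s
  simpa [eval₂_id] using this

lemma aff_map (g : ℤ[X]) {s : ℤ} (hs : s ≠ 0) (a c : ℤ) :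
    (aff g s a c).map (Int.castRingHom ℚ) =
      C ((s : ℚ) ^ g.natDegree) * (g.map (Int.castRingHom ℚ)).comp (C ((a : ℚ) / s) * X + C ((c : ℚ) / s)) := by
  apply Polynomial.funext
  intro q
  rw [eval_map, aff_eval₂ g hs, eval_mul, eval_C, eval_comp, eval_map]
  congr 2
  have hs' : (s : ℚ) ≠ 0 := by exact_mod_cast hs
  simp
  ring

lemma aff_irr {g : ℤ[X]} (hg : Irreducible (g.map (Int.castRingHom ℚ))) {s a : ℤ} (hs : s ≠ 0)
    (ha : a ≠ 0) (c : ℤ) : Irreducible ((aff g s a c).map (Int.castRingHom ℚ)) := by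
  rw [aff_map g hs]
  have hs' : (s : ℚ) ≠ 0 := by exact_mod_cast hs
  have ha' : (a : ℚ) ≠ 0 := by exact_mod_cast ha
  have hu : IsUnit (C ((s : ℚ) ^ g.natDegree) : ℚ[X]) := by
    rw [isUnit_C, isUnit_iff_ne_zero]; positivity
  rw [irreducible_isUnit_mul hu]
  have : Invertible ((a : ℚ) / s) := invertibleOfNonzero (by positivity)
  have h1 := (MulEquiv.irreducible_iff (algEquivCMulXAddC ((a : ℚ) / s) ((c : ℚ) / s))
    (x := g.map (Int.castRingHom ℚ))).2 hg
  simpa [algEquivCMulXAddC_apply, comp_eq_aeval] using h1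

end Pool.Agent.V5helper76.SP
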