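import Mathlib
import Pool.Agent.V5helper76.SP.Poly
import Pool.Agent.V5helper5.SQ.Cyc

/-!
# `S`-parts in a window of a trajectory
-/

set_option autoImplicit false

namespace Pool.Agent.V5helper76.SP

open Polynomial Finset
open Pool.Agent.V5helper5.SQ (T od cc branch congr_branch ek ek_rel)

variable {S : Finset ℕ}

/-- no root of `f` is the fixed point of the affine map of the first `j` steps, for any `j ≥ 1` -/
def Fre (f : ℤ[X]) (x : ℤ) : Prop :=
  ∀ j : ℕ, 1 ≤ j → ∀ r : ℚ, aeval r f = 0 → (2 : ℚ) ^ j * (T^[j] x - r) ≠ 3 ^ od j x * (x - r)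

/-- a finite set preserved by an affine map which is not an isometry is its fixed point -/
lemma fixed_root (R : Finset ℂ) (hR : R.Nonempty) (σ α γ : ℤ) (hσ : 0 < σ) (hα : 0 < α)
    (hne : σ ≠ α) (h : ∀ z ∈ R, ((α : ℂ) * z + γ) / σ ∈ R) :
    (((γ : ℚ) / (σ - α) : ℚ) : ℂ) ∈ R := by
  have hσ' : (σ : ℂ) ≠ 0 := by exact_mod_cast hσ.ne'
  have hα' : (α : ℂ) ≠ 0 := by exact_mod_cast hα.ne'
  have hd : (σ : ℂ) - α ≠ 0 := by
    rw [sub_ne_zero]; exact_mod_cast hne
  set F : ℂ → ℂ := fun z => ((α : ℂ) * z + γ) / σ with hF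
  set z0 : ℂ := (((γ : ℚ) / (σ - α) : ℚ) : ℂ) with hz0
  have hz0' : z0 = (γ : ℂ) / (σ - α) := by rw [hz0]; push_cast; rfl
  have hinj : Function.Injective F := by
    intro z w hzw
    simp only [hF] at hzw
    rw [div_left_inj' hσ', add_left_inj] at hzw
    exact mul_left_cancel₀ hα' hzw
  have himg : R.image F = R := by
    apply Finset.eq_of_subset_of_card_le
    · intro y hy
      obtain ⟨z, hz, rfl⟩ := Finset.mem_image.1 hy
      exact h z hz
    · rw [Finset.card_image_of_injective _ hinj]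
  have hdist : ∀ z, ‖F z - z0‖ = ((α : ℝ) / σ) * ‖z - z0‖ := by
    intro z
    have h1 : F z - z0 = ((α : ℂ) / σ) * (z - z0) := by
      rw [hz0', hF]
      field_simp
      ring
    rw [h1, norm_mul, norm_div]
    have h2 : ‖(α : ℂ)‖ = α := by
      rw [Complex.norm_intCast]; exact abs_of_pos (by exact_mod_cast hα)
    have h3 : ‖(σ : ℂ)‖ = σ := by
      rw [Complex.norm_intCast]; exact abs_of_pos (by exact_mod_cast hσ)
    rw [h2, h3]
  have hsum : ∑ z ∈ R, ‖z - z0‖ = ((α : ℝ) / σ) * ∑ z ∈ R, ‖z - z0‖ := by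
    conv_lhs => rw [← himg]
    rw [Finset.sum_image (fun a _ b _ hab => hinj hab), Finset.mul_sum]
    exact sum_congr rfl fun z _ => hdist z
  have hne1 : ((α : ℝ) / σ) ≠ 1 := by
    rw [Ne, div_eq_one_iff_eq (by exact_mod_cast hσ.ne')]
    intro h
    exact hne (by exact_mod_cast h.symm)
  have hzero : ∑ z ∈ R, ‖z - z0‖ = 0 := by
    have h1 : (1 - (α : ℝ) / σ) * ∑ z ∈ R, ‖z - z0‖ = 0 := by linarith
    rcases mul_eq_zero.1 h1 with h2 | h2
    · exact absurd (by linarith : ((α : ℝ) / σ) = 1) hne1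
    · exact h2
  obtain ⟨z, hz⟩ := hR
  have h1 := (Finset.sum_eq_zero_iff_of_nonneg (fun z _ => norm_nonneg (z - z0))).1 hzero z hz
  rw [norm_eq_zero, sub_eq_zero] at h1
  rw [← h1]; exact hz

lemma assoc_root {P Q : ℤ[X]}
    (h : Associated (P.map (Int.castRingHom ℚ)) (Q.map (Int.castRingHom ℚ))) (z : ℂ)
    (hz : P.eval₂ (Int.castRingHom ℂ) z = 0) : Q.eval₂ (Int.castRingHom ℂ) z = 0 := by
  obtain ⟨D, hD⟩ := h.dvd
  have e : ∀ G : ℤ[X], (G.map (Int.castRingHom ℚ)).eval₂ (algebraMap ℚ ℂ) z =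
      G.eval₂ (Int.castRingHom ℂ) z := by
    intro G
    rw [eval₂_map]
    congr 1
  rw [← e, hD, eval₂_mul, e, hz, zero_mul]

/-- the product of the window is squarefree -/
lemma not_assoc {g : ℤ[X]} (hg : Irreducible (g.map (Int.castRingHom ℚ))) {x : ℤ} {i k : ℕ}
    (hik : i < k) (hfre : Fre g (T^[i] x)) :
    ¬ Associated ((aff g (2 ^ i) (3 ^ od i x) (cc i x)).map (Int.castRingHom ℚ))
      ((aff g (2 ^ k) (3 ^ od k x) (cc k x)).map (Int.castRingHom ℚ)) := by
  intro hass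
  set l := k - i with hl
  set y := T^[i] x with hy
  have hl1 : 1 ≤ l := by omega
  have hod : od k x = od i x + od l y := by
    have := Pool.Agent.V5helper5.SQ.od_add i l x
    rw [← this]; congr 1; omega
  have hcc : cc k x = 3 ^ od l y * cc i x + 2 ^ i * cc l y := by
    have h1 := ek_rel hik.le x 0
    unfold ek at h1
    simp only [mul_zero, add_zero, sub_zero] at h1
    rw [← hl, ← hy] at h1
    linarith
  -- the roots
  have hg0 : g ≠ 0 := by
    rintro rfl
    simp at hg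
  set R : Finset ℂ := (g.map (Int.castRingHom ℂ)).roots.toFinset with hR
  have hgC : g.map (Int.castRingHom ℂ) ≠ 0 :=
    (Polynomial.map_ne_zero_iff (RingHom.injective_int _)).2 hg0
  have hmem : ∀ z : ℂ, z ∈ R ↔ g.eval₂ (Int.castRingHom ℂ) z = 0 := by
    intro z
    rw [hR, Multiset.mem_toFinset, mem_roots hgC, IsRoot.def, eval_map]
  have hne : R.Nonempty := by
    have hdeg : 0 < (g.map (Int.castRingHom ℂ)).degree := by
      rw [degree_map_eq_of_injective (RingHom.injective_int _),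
        ← degree_map_eq_of_injective (RingHom.injective_int (Int.castRingHom ℚ)) g]
      exact hg.degree_pos
    obtain ⟨z, hz⟩ := Complex.exists_root hdeg
    exact ⟨z, (hmem z).2 (by rw [← eval_map]; exact hz)⟩
  have h2l : (0 : ℤ) < 2 ^ l := by positivity
  have h3l : (0 : ℤ) < 3 ^ od l y := by positivity
  have hne2 : (2 : ℤ) ^ l ≠ 3 ^ od l y := by
    intro h
    have h4 : (2 : ℤ) ∣ 3 ^ od l y := by
      rw [← h]; exact dvd_pow_self 2 (by omega)
    have h5 : (2 : ℤ) ∣ 3 := Int.prime_two.dvd_of_dvd_pow h4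
    omega
  have h2i : ((2 : ℂ)) ^ i ≠ 0 := pow_ne_zero _ two_ne_zero
  have hmap : ∀ z ∈ R, (((3 ^ od l y : ℤ) : ℂ) * z + (cc l y : ℤ)) / ((2 ^ l : ℤ) : ℂ) ∈ R := by
    intro z hz
    -- the preimage
    set w : ℂ := (2 ^ i * z - cc i x) / 3 ^ od i x with hw
    have h3i : ((3 : ℂ)) ^ od i x ≠ 0 := pow_ne_zero _ (by norm_num)
    have hw1 : (((3 ^ od i x : ℤ) : ℂ) * w + (cc i x : ℤ)) / ((2 ^ i : ℤ) : ℂ) = z := by
      rw [hw]; push_cast; field_simp; ring
    have hw2 : (((3 ^ od k x : ℤ) : ℂ) * w + (cc k x : ℤ)) / ((2 ^ k : ℤ) : ℂ) =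
        (((3 ^ od l y : ℤ) : ℂ) * z + (cc l y : ℤ)) / ((2 ^ l : ℤ) : ℂ) := by
      have hk : k = i + l := by omega
      rw [hod, hcc, ← hw1, hk]
      push_cast
      rw [pow_add, pow_add]
      field_simp
      ring
    have e1 := aff_eval₂ g (s := 2 ^ i) (by positivity) (3 ^ od i x) (cc i x) w
    have e2 := aff_eval₂ g (s := 2 ^ k) (by positivity) (3 ^ od k x) (cc k x) w
    rw [hw1, (hmem z).1 hz, mul_zero] at e1
    have e3 := assoc_root hass w e1
    rw [e3, hw2] at e2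
    rw [hmem]
    rcases mul_eq_zero.1 e2.symm with h | h
    · exfalso
      have : (((2 ^ k : ℤ) : ℂ)) ^ g.natDegree ≠ 0 := by
        push_cast
        exact pow_ne_zero _ (pow_ne_zero _ two_ne_zero)
      exact this h
    · exact h
  have hroot := fixed_root R hne (2 ^ l) (3 ^ od l y) (cc l y) h2l h3l hne2 hmap
  set r : ℚ := ((cc l y : ℤ) : ℚ) / (((2 ^ l : ℤ) : ℚ) - ((3 ^ od l y : ℤ) : ℚ)) with hr
  rw [hmem] at hroot
  have hr0 : aeval r g = 0 := by
    have h1 : ((aeval r g : ℚ) : ℂ) = 0 := by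
      have h2 : ((aeval r g : ℚ) : ℂ) = g.eval₂ (Int.castRingHom ℂ) ((r : ℚ) : ℂ) := by
        rw [aeval_def]
        have := hom_eval₂ g (algebraMap ℤ ℚ) (algebraMap ℚ ℂ) r
        have h3 : (algebraMap ℚ ℂ).comp (algebraMap ℤ ℚ) = Int.castRingHom ℂ :=
          RingHom.ext_int _ _
        rw [h3] at this
        exact this
      rw [h2]; exact hroot
    exact_mod_cast h1
  refine hfre l hl1 r hr0 ?_
  have hb := branch y l
  have hbQ : (2 : ℚ) ^ l * (T^[l] y : ℤ) = 3 ^ od l y * y + cc l y := by exact_mod_cast hb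
  have hden : ((2 : ℚ) ^ l - 3 ^ od l y) ≠ 0 := by
    rw [sub_ne_zero]; exact_mod_cast hne2
  have hfix : (2 : ℚ) ^ l * r = 3 ^ od l y * r + cc l y := by
    rw [hr]; push_cast; field_simp; ring
  linear_combination hbQ - hfix

/-- the window lemma for an irreducible polynomial -/
lemma irr_window (hS : ∀ p ∈ S, p.Prime) {g : ℤ[X]} (hg : Irreducible (g.map (Int.castRingHom ℚ)))
    (m : ℕ) : ∃ C : ℝ, 0 ≤ C ∧ ∀ x : ℤ, x ≠ 0 → ∀ J ⊆ range m, (∀ j ∈ J, Fre g (T^[j] x)) →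
      ∑ j ∈ J, Lam S (g.eval (T^[j] x)) ≤ 3 * Real.log |(x : ℝ)| + C := by
  classical
  have key : ∀ (a : ℤ) (J : Finset ℕ), ∃ C : ℝ, 0 ≤ C ∧
      ((∀ i ∈ J, ∀ k ∈ J, i ≠ k →
        ¬ Associated ((aff g (2 ^ i) (3 ^ od i a) (cc i a)).map (Int.castRingHom ℚ))
          ((aff g (2 ^ k) (3 ^ od k a) (cc k a)).map (Int.castRingHom ℚ))) →
        ∀ x : ℤ, x ≠ 0 → ∑ j ∈ J, Lam S ((aff g (2 ^ j) (3 ^ od j a) (cc j a)).eval x) ≤
          3 * Real.log |(x : ℝ)| + C) := by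
    intro a J
    by_cases h : (∀ i ∈ J, ∀ k ∈ J, i ≠ k →
        ¬ Associated ((aff g (2 ^ i) (3 ^ od i a) (cc i a)).map (Int.castRingHom ℚ))
          ((aff g (2 ^ k) (3 ^ od k a) (cc k a)).map (Int.castRingHom ℚ)))
    · obtain ⟨C, hC, h1⟩ := fam hS J (fun j => aff g (2 ^ j) (3 ^ od j a) (cc j a))
        (fun j _ => aff_irr hg (by positivity) (by positivity) _) h (ε := 1) one_pos
      refine ⟨C, hC, fun _ x hx => ?_⟩
      have h2 := h1 x hx
      have e : (2 : ℝ) + 1 = 3 := by norm_num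
      rw [e] at h2
      exact h2
    · exact ⟨0, le_rfl, fun h' => absurd h' h⟩
  choose C hC0 hC using key
  refine ⟨∑ a ∈ range (2 ^ m), ∑ J ∈ (range m).powerset, C a J,
    sum_nonneg fun a _ => sum_nonneg fun J _ => hC0 _ J, fun x hx J hJ hfre => ?_⟩
  set a : ℕ := (x % 2 ^ m).toNat with ha
  have h2m : (0 : ℤ) < 2 ^ m := by positivity
  have hmod0 := Int.emod_nonneg x h2m.ne'
  have haZ : (a : ℤ) = x % 2 ^ m := Int.toNat_of_nonneg hmod0
  have halt : a < 2 ^ m := by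
    have := Int.emod_lt_of_pos x h2m
    rw [← haZ] at this
    exact_mod_cast this
  have hdvd : (2 : ℤ) ^ m ∣ x - a := by
    rw [haZ]; exact Int.dvd_self_sub_emod
  have hcong : ∀ j ∈ J, od j (a : ℤ) = od j x ∧ cc j (a : ℤ) = cc j x := by
    intro j hj
    have := congr_branch hdvd j (by have := mem_range.1 (hJ hj); omega)
    exact ⟨this.1.symm, this.2.symm⟩
  have h1 := hC a J (by
    intro i hi k hk hik
    rw [(hcong i hi).1, (hcong i hi).2, (hcong k hk).1, (hcong k hk).2]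
    rcases Nat.lt_or_gt_of_ne hik with hlt | hlt
    · exact not_assoc hg hlt (hfre i hi)
    · intro h
      exact not_assoc hg hlt (hfre k hk) h.symm) x hx
  have h2 : ∑ j ∈ J, Lam S (g.eval (T^[j] x)) ≤
      ∑ j ∈ J, Lam S ((aff g (2 ^ j) (3 ^ od j (a : ℤ)) (cc j (a : ℤ))).eval x) := by
    refine sum_le_sum fun j hj => ?_
    rw [(hcong j hj).1, (hcong j hj).2]
    rw [aff_eval g (branch x j)]
    exact Lam_le_mul hS (by positivity) _
  have h3 : C a J ≤ ∑ J ∈ (range m).powerset, C a J :=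
    single_le_sum (fun J _ => hC0 _ J) (mem_powerset.2 hJ)
  have h4 : ∑ J ∈ (range m).powerset, C a J ≤
      ∑ a ∈ range (2 ^ m), ∑ J ∈ (range m).powerset, C a J :=
    single_le_sum (f := fun a : ℕ => ∑ J ∈ (range m).powerset, C a J)
      (fun a _ => sum_nonneg fun J _ => hC0 _ J) (mem_range.2 halt)
  linarith

end Pool.Agent.V5helper76.SP
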