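import Mathlib
import Pool.Agent.V5helper76.SP.Window

/-!
# `S`-parts along trajectories
-/

set_option autoImplicit false

namespace Pool.Agent.V5helper76.SP

open Polynomial Finset
open Pool.Agent.V5helper5.SQ (T od cc branch congr_branch two_T abs_T_le abs_iterate_le IsCyc cyc_data
  finite_small)

variable {S : Finset ℕ}

/-- the window property -/
def Win (S : Finset ℕ) (f : ℤ[X]) : Prop :=
  ∀ ε : ℝ, 0 < ε → ∃ m0 : ℕ, ∀ m : ℕ, m0 ≤ m → ∃ C : ℝ, 0 ≤ C ∧ ∀ x : ℤ, x ≠ 0 →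
    ∀ J ⊆ range m, (∀ j ∈ J, Fre f (T^[j] x)) →
      ∑ j ∈ J, Lam S (f.eval (T^[j] x)) ≤ ε * m * Real.log |(x : ℝ)| + C

lemma log_abs_nonneg (x : ℤ) : 0 ≤ Real.log |(x : ℝ)| := by
  rcases eq_or_ne x 0 with rfl | hx
  · simp
  · apply Real.log_nonneg
    exact_mod_cast Int.one_le_abs hx

lemma win_irr (hS : ∀ p ∈ S, p.Prime) {g : ℤ[X]} (hg : Irreducible (g.map (Int.castRingHom ℚ))) :
    Win S g := by
  intro ε hε
  obtain ⟨m0, hm0⟩ := exists_nat_ge (3 / ε)
  refine ⟨m0, fun m hm => ?_⟩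
  obtain ⟨C, hC, h⟩ := irr_window hS hg m
  refine ⟨C, hC, fun x hx J hJ hfre => (h x hx J hJ hfre).trans ?_⟩
  have h1 : 3 ≤ ε * m := by
    have h2 : 3 / ε ≤ m := hm0.trans (by exact_mod_cast hm)
    rw [div_le_iff₀ hε] at h2
    linarith
  have h2 := log_abs_nonneg x
  nlinarith

lemma win_C (hS : ∀ p ∈ S, p.Prime) (c : ℤ) : Win S (C c) := by
  intro ε hε
  refine ⟨0, fun m _ => ⟨m * Lam S c, mul_nonneg (Nat.cast_nonneg _) (Lam_nonneg hS _),
    fun x hx J hJ _ => ?_⟩⟩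
  have h1 : ∑ j ∈ J, Lam S ((C c : ℤ[X]).eval (T^[j] x)) = J.card * Lam S c := by
    simp [sum_const]
  rw [h1]
  have h2 : (J.card : ℝ) ≤ m := by
    have := card_le_card hJ
    rw [card_range] at this
    exact_mod_cast this
  have h3 := mul_le_mul_of_nonneg_right h2 (Lam_nonneg hS c)
  have h4 := log_abs_nonneg x
  have : 0 ≤ ε * m * Real.log |(x : ℝ)| := by positivity
  linarith

lemma fre_mul {f g : ℤ[X]} {x : ℤ} (h : Fre (f * g) x) : Fre f x ∧ Fre g x := by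
  constructor
  · intro j hj r hr
    exact h j hj r (by rw [map_mul, hr, zero_mul])
  · intro j hj r hr
    exact h j hj r (by rw [map_mul, hr, mul_zero])

lemma win_mul (hS : ∀ p ∈ S, p.Prime) {f g : ℤ[X]} (hf : Win S f) (hg : Win S g) :
    Win S (f * g) := by
  intro ε hε
  obtain ⟨m1, h1⟩ := hf (ε / 2) (by positivity)
  obtain ⟨m2, h2⟩ := hg (ε / 2) (by positivity)
  refine ⟨max m1 m2, fun m hm => ?_⟩
  obtain ⟨C1, hC1, k1⟩ := h1 m (le_trans (le_max_left _ _) hm)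
  obtain ⟨C2, hC2, k2⟩ := h2 m (le_trans (le_max_right _ _) hm)
  refine ⟨C1 + C2, by positivity, fun x hx J hJ hfre => ?_⟩
  have e1 := k1 x hx J hJ (fun j hj => (fre_mul (hfre j hj)).1)
  have e2 := k2 x hx J hJ (fun j hj => (fre_mul (hfre j hj)).2)
  have e3 : ∑ j ∈ J, Lam S ((f * g).eval (T^[j] x)) ≤
      ∑ j ∈ J, Lam S (f.eval (T^[j] x)) + ∑ j ∈ J, Lam S (g.eval (T^[j] x)) := by
    rw [← sum_add_distrib]
    refine sum_le_sum fun j _ => ?_
    rw [eval_mul]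
    exact Lam_mul_le hS _ _
  linarith

/-- the window property holds for all polynomials -/
theorem win (hS : ∀ p ∈ S, p.Prime) (f : ℤ[X]) : f ≠ 0 → Win S f := by
  induction f using UniqueFactorizationMonoid.induction_on_prime with
  | h₁ => exact fun h => absurd rfl h
  | h₂ f hf =>
    intro _
    obtain ⟨c, _, rfl⟩ := Polynomial.isUnit_iff.1 hf
    exact win_C hS c
  | h₃ f p hf0 hp ih =>
    intro _
    refine win_mul hS ?_ (ih hf0)
    rcases eq_or_ne p.natDegree 0 with hd | hd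
    · obtain ⟨c, rfl⟩ := natDegree_eq_zero.1 hd
      exact win_C hS c
    · have hprim := hp.irreducible.isPrimitive hd
      exact win_irr hS ((IsPrimitive.Int.irreducible_iff_irreducible_map_cast hprim).1 hp.irreducible)

/-! ### trajectories -/

lemma abs_le_T (x : ℤ) : |x| ≤ 2 * |T x| := by
  have h := two_T x
  have e : 2 * |T x| = |2 * T x| := by rw [abs_mul]; simp
  rw [e, h]
  split_ifs with h1
  · exact le_rfl
  · rcases le_or_gt 0 x with h0 | h0
    · rw [abs_of_nonneg h0, abs_of_nonneg (by omega)]; omega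
    · rw [abs_of_neg h0, abs_of_neg (by omega)]; omega

lemma abs_le_iter (x : ℤ) : ∀ i : ℕ, |x| ≤ 2 ^ i * |T^[i] x| := by
  intro i
  induction i with
  | zero => simp
  | succ i ih =>
    rw [Function.iterate_succ_apply']
    have := abs_le_T (T^[i] x)
    have h2 : (0 : ℤ) < 2 ^ i := by positivity
    calc |x| ≤ 2 ^ i * |T^[i] x| := ih
      _ ≤ 2 ^ i * (2 * |T (T^[i] x)|) := mul_le_mul_of_nonneg_left this h2.le
      _ = _ := by ring

lemma iter_ne {x : ℤ} (hx : x ≠ 0) (i : ℕ) : T^[i] x ≠ 0 := by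
  intro h
  have := abs_le_iter x i
  rw [h, abs_zero, mul_zero] at this
  exact hx (abs_nonpos_iff.1 this)

lemma log_iter_ge {x : ℤ} (hx : x ≠ 0) (i : ℕ) :
    Real.log |(x : ℝ)| - i * Real.log 2 ≤ Real.log |(T^[i] x : ℝ)| := by
  have h1 := abs_le_iter x i
  have h1' : |(x : ℝ)| ≤ 2 ^ i * |(T^[i] x : ℝ)| := by exact_mod_cast h1
  have h2 : (0 : ℝ) < |(x : ℝ)| := abs_pos.2 (by exact_mod_cast hx)
  have h3 : (0 : ℝ) < |(T^[i] x : ℝ)| := abs_pos.2 (by exact_mod_cast iter_ne hx i)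
  have h4 := Real.log_le_log h2 h1'
  rw [Real.log_mul (by positivity) h3.ne', Real.log_pow] at h4
  linarith

/-- double counting of windows -/
lemma windows (ψ : ℕ → ℝ) (hψ : ∀ i, 0 ≤ ψ i) (m n : ℕ) :
    m * (∑ i ∈ range n, ψ i) ≤ ∑ t ∈ range n, ∑ j ∈ range m, ψ (t + j) + m * ∑ i ∈ range m, ψ i := by
  rw [sum_comm]
  have h : ∀ j ∈ range m, ∑ i ∈ range n, ψ i ≤ ∑ t ∈ range n, ψ (t + j) + ∑ i ∈ range m, ψ i := by
    intro j hj
    have hj' := mem_range.1 hj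
    have h1 : ∑ i ∈ range n, ψ i ≤ ∑ i ∈ range (j + n), ψ i :=
      sum_le_sum_of_subset_of_nonneg (range_subset_range.2 (by omega)) fun i _ _ => hψ i
    have h2 : ∑ i ∈ range (j + n), ψ i = ∑ i ∈ range j, ψ i + ∑ t ∈ range n, ψ (j + t) :=
      sum_range_add _ _ _
    have h3 : ∑ i ∈ range j, ψ i ≤ ∑ i ∈ range m, ψ i :=
      sum_le_sum_of_subset_of_nonneg (range_subset_range.2 (by omega)) fun i _ _ => hψ i
    have h4 : ∑ t ∈ range n, ψ (j + t) = ∑ t ∈ range n, ψ (t + j) :=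
      sum_congr rfl fun t _ => by rw [add_comm]
    linarith
  have h5 := sum_le_sum h
  rw [sum_const, card_range, nsmul_eq_mul, sum_add_distrib, sum_const, card_range, nsmul_eq_mul] at h5
  exact h5

open Classical in
/-- the logarithm of the `S`-part of `f y` for the elements in question -/
noncomputable def phi (S : Finset ℕ) (f : ℤ[X]) (y : ℤ) : ℝ := if Fre f y then Lam S (f.eval y) else 0

lemma phi_nonneg (hS : ∀ p ∈ S, p.Prime) (f : ℤ[X]) (y : ℤ) : 0 ≤ phi S f y := by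
  unfold phi
  split_ifs
  · exact Lam_nonneg hS _
  · exact le_rfl

lemma win_phi {f : ℤ[X]} (hf : Win S f) {ε : ℝ} (hε : 0 < ε) :
    ∃ m : ℕ, 1 ≤ m ∧ ∃ C : ℝ, 0 ≤ C ∧ ∀ x : ℤ, x ≠ 0 →
      ∑ j ∈ range m, phi S f (T^[j] x) ≤ ε * m * Real.log |(x : ℝ)| + C := by
  classical
  obtain ⟨m0, h⟩ := hf ε hε
  obtain ⟨C, hC, h1⟩ := h (m0 + 1) (by omega)
  refine ⟨m0 + 1, by omega, C, hC, fun x hx => ?_⟩
  have h2 := h1 x hx ((range (m0 + 1)).filter fun j => Fre f (T^[j] x)) (filter_subset _ _)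
    (fun j hj => (mem_filter.1 hj).2)
  rw [sum_filter] at h2
  unfold phi
  exact h2

/-- sums along trajectories -/
theorem traj_sum (hS : ∀ p ∈ S, p.Prime) {f : ℤ[X]} (hf : f ≠ 0) {ε : ℝ} (hε : 0 < ε) :
    ∃ K : ℝ, 0 ≤ K ∧ ∀ (x : ℤ) (n : ℕ), x ≠ 0 →
      ∑ t ∈ range n, phi S f (T^[t] x) ≤
        ε * ∑ t ∈ range n, Real.log |(T^[t] x : ℝ)| + K * (Real.log |(x : ℝ)| + n) := by
  obtain ⟨m, hm, C, hC, h⟩ := win_phi (win hS f hf) hε
  refine ⟨2 * C + ε * m, by positivity, fun x n hx => ?_⟩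
  have hmR : (1 : ℝ) ≤ m := by exact_mod_cast hm
  have hL := log_abs_nonneg x
  rcases Nat.eq_zero_or_pos n with rfl | hn
  · simp
    positivity
  have hnR : (1 : ℝ) ≤ n := by exact_mod_cast hn
  have h1 := windows (fun i => phi S f (T^[i] x)) (fun i => phi_nonneg hS f _) m n
  have h2 : ∑ t ∈ range n, ∑ j ∈ range m, phi S f (T^[t + j] x) ≤
      ∑ t ∈ range n, (ε * m * Real.log |(T^[t] x : ℝ)| + C) := by
    refine sum_le_sum fun t _ => ?_
    have h3 := h (T^[t] x) (iter_ne hx t)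
    have h4 : ∑ j ∈ range m, phi S f (T^[t + j] x) = ∑ j ∈ range m, phi S f (T^[j] (T^[t] x)) := by
      refine sum_congr rfl fun j _ => ?_
      rw [← Function.iterate_add_apply, add_comm]
    rw [h4]; exact h3
  rw [sum_add_distrib, ← mul_sum, sum_const, card_range, nsmul_eq_mul] at h2
  have h5 := h x hx
  set A := ∑ t ∈ range n, phi S f (T^[t] x)
  set B := ∑ t ∈ range n, Real.log |(T^[t] x : ℝ)|
  set W := ∑ i ∈ range m, phi S f (T^[i] x)
  have hm0 : (0 : ℝ) < m := by linarith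
  have h6 : m * A ≤ m * (ε * B + n * C + (ε * m * Real.log |(x : ℝ)| + C)) := by
    have h7 : m * W ≤ m * (ε * m * Real.log |(x : ℝ)| + C) := mul_le_mul_of_nonneg_left h5 hm0.le
    have h8 : (n : ℝ) * C ≤ m * (n * C) := by
      have : 0 ≤ (n : ℝ) * C := by positivity
      nlinarith
    nlinarith
  have h7 := le_of_mul_le_mul_left h6 hm0
  have h8 : 0 ≤ ε * m * n := by positivity
  have h9 : 0 ≤ C * Real.log |(x : ℝ)| := by positivity
  have h10 : C ≤ C * n := by nlinarith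
  nlinarith

end Pool.Agent.V5helper76.SP
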