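import Mathlib
import Pool.Agent.V5helper76.SP.Main

/-!
# `S`-parts in cycles
-/

set_option autoImplicit false

namespace Pool.Agent.V5helper76.SP

open Polynomial Finset
open Pool.Agent.V5helper5.SQ (T od cc branch congr_branch two_T abs_T_le abs_iterate_le IsCyc cyc_data
  finite_small)

variable {S : Finset ℕ}

/-- the `S`-part of `f y` is at least `|y| ^ δ` -/
def Bad (S : Finset ℕ) (f : ℤ[X]) (δ : ℝ) (y : ℤ) : Prop :=
  Fre f y ∧ δ * Real.log |(y : ℝ)| ≤ Lam S (f.eval y)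

open Classical in
/-- the indicator function -/
noncomputable def ind (S : Finset ℕ) (f : ℤ[X]) (δ : ℝ) (y : ℤ) : ℝ := if Bad S f δ y then 1 else 0

lemma ind_nonneg (f : ℤ[X]) (δ : ℝ) (y : ℤ) : 0 ≤ ind S f δ y := by
  unfold ind; split_ifs <;> norm_num

lemma ind_le_one (f : ℤ[X]) (δ : ℝ) (y : ℤ) : ind S f δ y ≤ 1 := by
  unfold ind; split_ifs <;> norm_num

lemma ind_mul_le (hS : ∀ p ∈ S, p.Prime) (f : ℤ[X]) (δ : ℝ) (y : ℤ) :
    ind S f δ y * (δ * Real.log |(y : ℝ)|) ≤ phi S f y := by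
  unfold ind phi
  split_ifs with h1 h2 h2
  · rw [one_mul]; exact h1.2
  · exact absurd h1.1 h2
  · rw [zero_mul]; exact Lam_nonneg hS _
  · rw [zero_mul]

/-- few small terms -/
lemma few_small {x : ℤ} {n : ℕ} (hinj : Set.InjOn (fun i => T^[i] x) (range n : Finset ℕ)) (B : ℕ) :
    ((range n).filter fun t => |T^[t] x| ≤ (B : ℤ)).card ≤ 2 * B + 1 := by
  have h1 : ((range n).filter fun t => |T^[t] x| ≤ (B : ℤ)).card ≤ (Icc (-(B : ℤ)) B).card := by
    apply Finset.card_le_card_of_injOn (fun t => T^[t] x)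
    · intro t ht
      have h2 := (mem_filter.1 (mem_coe.1 ht)).2
      exact mem_coe.2 (mem_Icc.2 (abs_le.1 h2))
    · intro t ht u hu h
      exact hinj (mem_coe.2 (mem_filter.1 (mem_coe.1 ht)).1) (mem_coe.2 (mem_filter.1 (mem_coe.1 hu)).1) h
  rw [Int.card_Icc] at h1
  omega

/-- counting along trajectories -/
theorem traj_count (hS : ∀ p ∈ S, p.Prime) {f : ℤ[X]} (hf : f ≠ 0) {ε : ℝ} (hε : 0 < ε) :
    ∃ K : ℝ, 0 ≤ K ∧ ∀ (x : ℤ) (n : ℕ), x ≠ 0 →
      Set.InjOn (fun i => T^[i] x) (range n : Finset ℕ) →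
      ∑ t ∈ range n, ind S f ε (T^[t] x) ≤ ε * n + K := by
  obtain ⟨m, hm, C, hC, h⟩ := win_phi (win hS f hf) (ε := ε ^ 2 / 8) (by positivity)
  have hmR : (1 : ℝ) ≤ m := by exact_mod_cast hm
  have hm0 : (0 : ℝ) < m := by linarith
  -- the threshold
  set L : ℝ := 2 * m * Real.log 2 + C / (ε ^ 2 / 8 * m) + 1 with hL
  have hlog2 : 0 < Real.log 2 := Real.log_pos (by norm_num)
  have hL1 : 0 ≤ C / (ε ^ 2 / 8 * m) := by positivity
  have hL2 : 0 ≤ 2 * m * Real.log 2 := by positivity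
  obtain ⟨B, hB⟩ := exists_nat_ge (Real.exp L)
  refine ⟨2 * B + 1 + m, by positivity, fun x n hx hinj => ?_⟩
  have h1 := windows (fun i => ind S f ε (T^[i] x)) (fun i => ind_nonneg f ε _) m n
  have h2 : ∑ i ∈ range m, ind S f ε (T^[i] x) ≤ m := by
    calc ∑ i ∈ range m, ind S f ε (T^[i] x) ≤ ∑ i ∈ range m, (1 : ℝ) :=
          sum_le_sum fun i _ => ind_le_one f ε _
      _ = m := by simp
  -- a window
  have h3 : ∀ t ∈ range n, ∑ j ∈ range m, ind S f ε (T^[t + j] x) ≤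
      ε / 2 * m + (if |T^[t] x| ≤ (B : ℤ) then (m : ℝ) else 0) := by
    intro t _
    set y := T^[t] x with hy
    have hy0 : y ≠ 0 := iter_ne hx t
    have e : ∀ j, T^[t + j] x = T^[j] y := by
      intro j
      rw [hy, ← Function.iterate_add_apply, add_comm]
    simp only [e]
    split_ifs with hs
    · have : ∑ j ∈ range m, ind S f ε (T^[j] y) ≤ m := by
        calc ∑ i ∈ range m, ind S f ε (T^[i] y) ≤ ∑ i ∈ range m, (1 : ℝ) :=
              sum_le_sum fun i _ => ind_le_one f ε _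
          _ = m := by simp
      have h4 : 0 ≤ ε / 2 * m := by positivity
      linarith
    · push Not at hs
      rw [add_zero]
      have hyB : Real.exp L < |(y : ℝ)| := lt_of_le_of_lt hB (by exact_mod_cast hs)
      have hyL : L < Real.log |(y : ℝ)| := by
        rw [← Real.log_exp L]
        exact Real.log_lt_log (Real.exp_pos _) hyB
      set ℓ := Real.log |(y : ℝ)| with hℓ
      have hℓ0 : 0 < ℓ := by linarith
      have h5 := h y hy0
      rw [← hℓ] at h5
      have h6 : (∑ j ∈ range m, ind S f ε (T^[j] y)) * (ε * (ℓ / 2)) ≤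
          ∑ j ∈ range m, phi S f (T^[j] y) := by
        rw [sum_mul]
        refine sum_le_sum fun j hj => ?_
        refine le_trans ?_ (ind_mul_le hS f ε (T^[j] y))
        refine mul_le_mul_of_nonneg_left ?_ (ind_nonneg f ε _)
        refine mul_le_mul_of_nonneg_left ?_ hε.le
        have h7 := log_iter_ge hy0 j
        rw [← hℓ] at h7
        have h8 : (j : ℝ) ≤ m := by exact_mod_cast (mem_range.1 hj).le
        have h9 : (j : ℝ) * Real.log 2 ≤ m * Real.log 2 := mul_le_mul_of_nonneg_right h8 hlog2.le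
        linarith
      have h7 : C ≤ ε ^ 2 / 8 * m * ℓ := by
        have h8 : C / (ε ^ 2 / 8 * m) ≤ ℓ := by linarith
        rw [div_le_iff₀ (by positivity)] at h8
        linarith
      have h8 : (∑ j ∈ range m, ind S f ε (T^[j] y)) * (ε * (ℓ / 2)) ≤
          (ε / 2 * m) * (ε * (ℓ / 2)) := by
        refine (h6.trans h5).trans ?_
        nlinarith
      exact le_of_mul_le_mul_right h8 (by positivity)
  have h4 := sum_le_sum h3
  rw [sum_add_distrib, sum_const, card_range, nsmul_eq_mul, ← sum_filter, sum_const,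
    nsmul_eq_mul] at h4
  have h5 : ((((range n).filter fun t => |T^[t] x| ≤ (B : ℤ)).card : ℕ) : ℝ) ≤ 2 * B + 1 := by
    exact_mod_cast few_small hinj B
  set A := ∑ t ∈ range n, ind S f ε (T^[t] x)
  have h6 : (m : ℝ) * A ≤ m * (ε / 2 * n + (2 * B + 1) + m) := by
    have h7 := mul_le_mul_of_nonneg_right h5 hm0.le
    have h8 := mul_le_mul_of_nonneg_left h2 hm0.le
    calc (m : ℝ) * A ≤ _ := h1
      _ ≤ n * (ε / 2 * m) + (2 * B + 1) * m + m * m := by
          gcongr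
          exact h4.trans (by linarith)
      _ = _ := by ring
  have h7 := le_of_mul_le_mul_left h6 hm0
  have h8 : 0 ≤ ε / 2 * n := by positivity
  linarith

/-! ### cycles -/

lemma sum_cyc {Z : Finset ℤ} {x : ℤ} {p : ℕ}
    (hinj : Set.InjOn (fun i => T^[i] x) (range p : Finset ℕ))
    (hZ : Z = (range p).image fun i => T^[i] x) (F : ℤ → ℝ) :
    ∑ y ∈ Z, F y = ∑ t ∈ range p, F (T^[t] x) := by
  rw [hZ, sum_image hinj]

lemma sum_mul_period {x : ℤ} {p : ℕ} (hx : T^[p] x = x) (F : ℤ → ℝ) (N : ℕ) :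
    ∑ t ∈ range (p * N), F (T^[t] x) = N * ∑ t ∈ range p, F (T^[t] x) := by
  induction N with
  | zero => simp
  | succ N ih =>
    rw [mul_add, mul_one, sum_range_add, ih]
    have h1 : ∀ t, T^[p * N + t] x = T^[t] x := by
      intro t
      rw [add_comm, Function.iterate_add_apply]
      congr 1
      rw [Function.iterate_mul]
      exact Function.iterate_fixed hx N
    simp only [h1]
    push_cast
    ring

/-- the sum over the even elements of a cycle -/
lemma even_sum {x : ℤ} {p : ℕ} (hx0 : x ≠ 0) (hx : T^[p] x = x) :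
    ∑ t ∈ range p, (if T^[t] x % 2 = 0 then Real.log |(T^[t] x : ℝ)| else 0) ≤
      ∑ t ∈ range p, (if T^[t] x % 2 = 0 then 0 else Real.log |(T^[t] x : ℝ)|) + p := by
  have hlog2 : 0 < Real.log 2 := Real.log_pos (by norm_num)
  have hlog21 : Real.log 2 ≤ 1 := by linarith [Real.log_two_lt_d9]
  set ℓ : ℕ → ℝ := fun t => Real.log |(T^[t] x : ℝ)| with hℓ
  have h1 : ∑ t ∈ range p, (ℓ (t + 1) ^ 2 - ℓ t ^ 2) = 0 := by
    rw [sum_range_sub (fun t => ℓ t ^ 2) p]
    simp [hℓ, hx]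
  have h2 : ∀ t ∈ range p, ℓ (t + 1) ^ 2 - ℓ t ^ 2 ≤
      2 * Real.log 2 * ((if T^[t] x % 2 = 0 then 0 else ℓ t) - (if T^[t] x % 2 = 0 then ℓ t else 0)) +
        Real.log 2 ^ 2 := by
    intro t _
    have hy0 : T^[t] x ≠ 0 := iter_ne hx0 t
    have hy1 : T^[t + 1] x ≠ 0 := iter_ne hx0 (t + 1)
    have hyR : (0 : ℝ) < |(T^[t] x : ℝ)| := abs_pos.2 (by exact_mod_cast hy0)
    have hyR1 : (0 : ℝ) < |(T^[t + 1] x : ℝ)| := abs_pos.2 (by exact_mod_cast hy1)
    have hs : T^[t + 1] x = T (T^[t] x) := Function.iterate_succ_apply' _ _ _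
    have hnn : 0 ≤ ℓ (t + 1) := log_abs_nonneg _
    have hnn0 : 0 ≤ ℓ t := log_abs_nonneg _
    split_ifs with hev
    · have h3 := two_T (T^[t] x)
      rw [if_pos hev, ← hs] at h3
      have h4 : |(T^[t] x : ℝ)| = 2 * |(T^[t + 1] x : ℝ)| := by
        have : (T^[t] x : ℝ) = 2 * (T^[t + 1] x : ℝ) := by exact_mod_cast h3.symm
        rw [this, abs_mul]; norm_num
      have h5 : ℓ t = Real.log 2 + ℓ (t + 1) := by
        simp only [hℓ]
        rw [h4, Real.log_mul (by norm_num) hyR1.ne']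
      have h6 : ℓ (t + 1) = ℓ t - Real.log 2 := by linarith
      rw [h6]
      nlinarith
    · have h3 : |(T^[t + 1] x : ℝ)| ≤ 2 * |(T^[t] x : ℝ)| := by
        rw [hs]; exact_mod_cast abs_T_le (T^[t] x)
      have h4 : ℓ (t + 1) ≤ Real.log 2 + ℓ t := by
        simp only [hℓ]
        rw [← Real.log_mul (by norm_num) hyR.ne']
        exact Real.log_le_log hyR1 h3
      nlinarith
  have h3 := sum_le_sum h2
  rw [h1, sum_add_distrib, ← mul_sum, sum_sub_distrib, sum_const, card_range, nsmul_eq_mul] at h3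
  set A := ∑ t ∈ range p, (if T^[t] x % 2 = 0 then ℓ t else 0)
  set B := ∑ t ∈ range p, (if T^[t] x % 2 = 0 then 0 else ℓ t)
  have h4 : 2 * Real.log 2 * (A - B) ≤ 2 * Real.log 2 * p := by
    have h5 : (p : ℝ) * Real.log 2 ^ 2 ≤ 2 * Real.log 2 * p := by
      have hp : (0 : ℝ) ≤ p := Nat.cast_nonneg p
      have : Real.log 2 ^ 2 ≤ 2 * Real.log 2 := by nlinarith
      nlinarith
    nlinarith
  have h5 := le_of_mul_le_mul_left h4 (by positivity)
  linarith

/-- the average of the logarithm is large on long cycles -/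
lemma large_mean (A : ℝ) : ∃ p0 : ℕ, ∀ (x : ℤ) (p : ℕ), p0 ≤ p → x ≠ 0 →
    Set.InjOn (fun i => T^[i] x) (range p : Finset ℕ) →
      A * p ≤ ∑ t ∈ range p, Real.log |(T^[t] x : ℝ)| := by
  obtain ⟨M, hM⟩ := exists_nat_ge (Real.exp (2 * |A|))
  refine ⟨2 * (2 * M + 1), fun x p hp hx hinj => ?_⟩
  have h1 := few_small hinj M
  have hA : A ≤ |A| := le_abs_self A
  have hA0 : 0 ≤ |A| := abs_nonneg A
  have h2 : ∀ t ∈ range p, 2 * |A| * (1 - (if |T^[t] x| ≤ (M : ℤ) then (1 : ℝ) else 0)) ≤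
      Real.log |(T^[t] x : ℝ)| := by
    intro t _
    split_ifs with hs
    · rw [sub_self, mul_zero]; exact log_abs_nonneg _
    · push Not at hs
      rw [sub_zero, mul_one, ← Real.log_exp (2 * |A|)]
      apply Real.log_le_log (Real.exp_pos _)
      refine hM.trans ?_
      exact_mod_cast hs.le
  have h3 := sum_le_sum h2
  rw [← mul_sum, sum_sub_distrib, sum_const, card_range, nsmul_eq_mul, mul_one, ← sum_filter,
    sum_const, nsmul_eq_mul, mul_one] at h3
  refine le_trans ?_ h3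
  have h4 : ((((range p).filter fun t => |T^[t] x| ≤ (M : ℤ)).card : ℕ) : ℝ) ≤ 2 * M + 1 := by
    exact_mod_cast h1
  have h5 : (2 * (2 * (M : ℝ) + 1)) ≤ p := by exact_mod_cast hp
  have h6 : (0 : ℝ) ≤ p := Nat.cast_nonneg p
  have h7 : |A| * p ≤ 2 * |A| * (p - (((range p).filter fun t => |T^[t] x| ≤ (M : ℤ)).card : ℕ)) := by
    nlinarith
  nlinarith

lemma zero_card {Z : Finset ℤ} {x : ℤ} {p : ℕ} (hx : T^[p] x = x)
    (hinj : Set.InjOn (fun i => T^[i] x) (range p : Finset ℕ)) (h0 : x = 0) : p ≤ 1 := by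
  have hT0 : ∀ i : ℕ, T^[i] 0 = 0 := by
    intro i
    apply Function.iterate_fixed
    rfl
  by_contra hcon
  have h2 : (0 : ℕ) = 1 := by
    apply hinj
    · exact Finset.mem_coe.2 (Finset.mem_range.2 (by omega))
    · exact Finset.mem_coe.2 (Finset.mem_range.2 (by omega))
    · simp only [h0, hT0]
  omega

/-- sums over cycles -/
theorem cyc_sum (hS : ∀ p ∈ S, p.Prime) {f : ℤ[X]} (hf : f ≠ 0) {ε : ℝ} (hε : 0 < ε) :
    {Z : Finset ℤ | IsCyc Z ∧ ε * ∑ y ∈ Z, (if y % 2 = 0 then 0 else Real.log |(y : ℝ)|) <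
      ∑ y ∈ Z, phi S f y}.Finite := by
  obtain ⟨K, hK, h⟩ := traj_sum hS hf (ε := ε / 8) (by positivity)
  obtain ⟨p0, hp0⟩ := large_mean (8 * K / ε + 2)
  apply (finite_small (p0 + 1)).subset
  rintro Z ⟨hZ, hlt⟩
  refine ⟨hZ, ?_⟩
  by_contra hcon
  push Not at hcon
  obtain ⟨x, hp1, hx, hinj, himg, _⟩ := cyc_data hZ
  set p := Z.card with hp
  have hx0 : x ≠ 0 := by
    intro h0
    have := zero_card (Z := Z) hx hinj h0
    omega
  rw [sum_cyc hinj himg, sum_cyc hinj himg] at hlt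
  have h1 := hp0 x p (by omega) hx0 hinj
  have h2 := even_sum hx0 hx
  set A := ∑ t ∈ range p, phi S f (T^[t] x) with hA
  set B := ∑ t ∈ range p, Real.log |(T^[t] x : ℝ)| with hB
  set O := ∑ t ∈ range p, (if T^[t] x % 2 = 0 then 0 else Real.log |(T^[t] x : ℝ)|) with hO
  set E := ∑ t ∈ range p, (if T^[t] x % 2 = 0 then Real.log |(T^[t] x : ℝ)| else 0) with hE
  have hBEO : B = O + E := by
    rw [hB, hO, hE, ← sum_add_distrib]
    refine sum_congr rfl fun t _ => ?_
    split_ifs <;> simp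
  have hL := log_abs_nonneg x
  have hpR : (0 : ℝ) ≤ p := Nat.cast_nonneg p
  -- the limit
  have h3 : A ≤ ε / 8 * B + K * p := by
    by_contra hcon2
    push Not at hcon2
    set D := A - (ε / 8 * B + K * p) with hD
    have hD0 : 0 < D := by linarith
    obtain ⟨N, hN⟩ := exists_nat_gt (K * Real.log |(x : ℝ)| / D)
    have h4 := h x (p * N) hx0
    rw [sum_mul_period hx (fun y => phi S f y) N, sum_mul_period hx (fun y => Real.log |(y : ℝ)|) N,
      ← hA, ← hB] at h4
    rw [div_lt_iff₀ hD0] at hN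
    push_cast at h4
    have h5 : (N : ℝ) * D ≤ K * Real.log |(x : ℝ)| := by
      rw [hD]; nlinarith
    linarith
  have h4 : K * p ≤ ε / 8 * B := by
    have h5 : (8 * K / ε) * p ≤ B := by nlinarith
    have h6 : ε / 8 * ((8 * K / ε) * p) = K * p := by field_simp
    rw [← h6]
    exact mul_le_mul_of_nonneg_left h5 (by positivity)
  have h5 : 2 * (p : ℝ) ≤ B := by
    have : 0 ≤ 8 * K / ε := by positivity
    nlinarith
  have h6 : B ≤ 4 * O := by linarith
  have h7 : ε / 8 * B ≤ ε / 8 * (4 * O) := mul_le_mul_of_nonneg_left h6 (by positivity)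
  have h8 : 0 ≤ O := by
    rw [hO]
    refine sum_nonneg fun t _ => ?_
    split_ifs
    · exact le_rfl
    · exact log_abs_nonneg _
  have h9 : 0 ≤ ε * O := by positivity
  linarith

/-- counting in cycles -/
theorem cyc_count (hS : ∀ p ∈ S, p.Prime) {f : ℤ[X]} (hf : f ≠ 0) {ε : ℝ} (hε : 0 < ε) :
    {Z : Finset ℤ | IsCyc Z ∧ ε * Z.card < ∑ y ∈ Z, ind S f ε y}.Finite := by
  set δ := min ε (ε / 2) with hδ
  obtain ⟨K, hK, h⟩ := traj_count hS hf (ε := ε / 2) (by positivity)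
  obtain ⟨p0, hp0⟩ := exists_nat_ge (2 * K / ε)
  apply (finite_small (p0 + 1)).subset
  rintro Z ⟨hZ, hlt⟩
  refine ⟨hZ, ?_⟩
  by_contra hcon
  push Not at hcon
  obtain ⟨x, hp1, hx, hinj, himg, _⟩ := cyc_data hZ
  set p := Z.card with hp
  have hx0 : x ≠ 0 := by
    intro h0
    have := zero_card (Z := Z) hx hinj h0
    omega
  rw [sum_cyc hinj himg] at hlt
  have h1 := h x p hx0 hinj
  have h2 : ∑ t ∈ range p, ind S f ε (T^[t] x) ≤ ∑ t ∈ range p, ind S f (ε / 2) (T^[t] x) := by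
    refine sum_le_sum fun t _ => ?_
    unfold ind
    split_ifs with h3 h4 h4
    · exact le_rfl
    · exfalso
      apply h4
      refine ⟨h3.1, le_trans ?_ h3.2⟩
      have := log_abs_nonneg (T^[t] x)
      nlinarith
    · norm_num
    · exact le_rfl
  have h3 : 2 * K / ε ≤ p := hp0.trans (by exact_mod_cast (by omega : p0 ≤ p))
  rw [div_le_iff₀ hε] at h3
  linarith

end Pool.Agent.V5helper76.SP
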