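import Mathlib
import Pool.Agent.V5helper76.SP.Cyc

/-!
# `S`-parts along all trajectories of large integers
-/

set_option autoImplicit false

namespace Pool.Agent.V5helper76.SP

open Polynomial Finset
open Pool.Agent.V5helper5.SQ (T od cc branch congr_branch two_T abs_T_le abs_iterate_le)

variable {S : Finset ℕ}

/-- the average of the logarithm is large on pieces of trajectories of large integers -/
lemma large_mean_traj (A : ℝ) : ∃ N : ℝ, ∀ (x : ℤ) (L : ℕ), x ≠ 0 → N ≤ Real.log |(x : ℝ)| →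
    Set.InjOn (fun i => T^[i] x) (range L : Finset ℕ) →
      A * L ≤ ∑ t ∈ range L, Real.log |(T^[t] x : ℝ)| := by
  obtain ⟨p0, hp0⟩ := large_mean A
  have hlog2 : 0 < Real.log 2 := Real.log_pos (by norm_num)
  refine ⟨|A| + p0 * Real.log 2, fun x L hx hN hinj => ?_⟩
  rcases Nat.lt_or_ge L p0 with h | h
  · have h1 : ∀ t ∈ range L, A ≤ Real.log |(T^[t] x : ℝ)| := by
      intro t ht
      have h2 := log_iter_ge hx t
      have h3 : (t : ℝ) ≤ p0 := by exact_mod_cast (by have := mem_range.1 ht; omega : t ≤ p0)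
      have h4 := mul_le_mul_of_nonneg_right h3 hlog2.le
      have h5 := le_abs_self A
      linarith
    have h2 := sum_le_sum h1
    rw [sum_const, card_range, nsmul_eq_mul] at h2
    linarith
  · exact hp0 x L h hx hinj

lemma first_terms {x : ℤ} (hx : x ≠ 0) (L1 L : ℕ) (hL : L1 ≤ L)
    (hN : 2 * (L1 * Real.log 2) ≤ Real.log |(x : ℝ)|) :
    (L1 : ℝ) / 2 * Real.log |(x : ℝ)| ≤ ∑ t ∈ range L, Real.log |(T^[t] x : ℝ)| := by
  have hlog2 : 0 < Real.log 2 := Real.log_pos (by norm_num)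
  have h1 : ∑ t ∈ range L1, Real.log |(T^[t] x : ℝ)| ≤ ∑ t ∈ range L, Real.log |(T^[t] x : ℝ)| :=
    sum_le_sum_of_subset_of_nonneg (range_subset_range.2 hL) fun t _ _ => log_abs_nonneg _
  refine le_trans ?_ h1
  have h2 : ∀ t ∈ range L1, Real.log |(x : ℝ)| / 2 ≤ Real.log |(T^[t] x : ℝ)| := by
    intro t ht
    have h3 := log_iter_ge hx t
    have h4 : (t : ℝ) ≤ L1 := by exact_mod_cast (mem_range.1 ht).le
    have h5 := mul_le_mul_of_nonneg_right h4 hlog2.le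
    linarith
  have h3 := sum_le_sum h2
  rw [sum_const, card_range, nsmul_eq_mul] at h3
  linarith

/-- sums over long pieces of trajectories of large integers -/
theorem all_traj (hS : ∀ p ∈ S, p.Prime) {f : ℤ[X]} (hf : f ≠ 0) {ε : ℝ} (hε : 0 < ε) :
    ∃ (N : ℝ) (L1 : ℕ), ∀ (x : ℤ) (L : ℕ), x ≠ 0 → N ≤ Real.log |(x : ℝ)| → L1 ≤ L →
      Set.InjOn (fun i => T^[i] x) (range L : Finset ℕ) →
      ∑ t ∈ range L, phi S f (T^[t] x) ≤ ε * ∑ t ∈ range L, Real.log |(T^[t] x : ℝ)| := by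
  obtain ⟨K, hK, h⟩ := traj_sum hS hf (ε := ε / 2) (by positivity)
  obtain ⟨N, hN⟩ := large_mean_traj (4 * K / ε)
  obtain ⟨L1, hL1⟩ := exists_nat_ge (8 * K / ε)
  refine ⟨max N (2 * (L1 * Real.log 2)), L1, fun x L hx hNx hL hinj => ?_⟩
  have h1 := h x L hx
  have h2 := hN x L hx ((le_max_left _ _).trans hNx) hinj
  have h3 := first_terms hx L1 L hL ((le_max_right _ _).trans hNx)
  have hlx := log_abs_nonneg x
  set B := ∑ t ∈ range L, Real.log |(T^[t] x : ℝ)|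
  have h4 : K * L ≤ ε / 4 * B := by
    have h5 : ε / 4 * (4 * K / ε * L) = K * L := by field_simp
    rw [← h5]
    exact mul_le_mul_of_nonneg_left h2 (by positivity)
  have h5 : K * Real.log |(x : ℝ)| ≤ ε / 4 * B := by
    have h6 : 8 * K / ε / 2 * Real.log |(x : ℝ)| ≤ B := by
      refine le_trans ?_ h3
      exact mul_le_mul_of_nonneg_right (by linarith) hlx
    have h7 : ε / 4 * (8 * K / ε / 2 * Real.log |(x : ℝ)|) = K * Real.log |(x : ℝ)| := by field_simp; ring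
    rw [← h7]
    exact mul_le_mul_of_nonneg_left h6 (by positivity)
  linarith

/-- counting -/
theorem all_count (hS : ∀ p ∈ S, p.Prime) {f : ℤ[X]} (hf : f ≠ 0) {ε : ℝ} (hε : 0 < ε) :
    ∃ L1 : ℕ, ∀ (x : ℤ) (L : ℕ), x ≠ 0 → L1 ≤ L →
      Set.InjOn (fun i => T^[i] x) (range L : Finset ℕ) →
      ∑ t ∈ range L, ind S f ε (T^[t] x) ≤ ε * L := by
  obtain ⟨K, hK, h⟩ := traj_count hS hf (ε := ε / 2) (by positivity)
  obtain ⟨L1, hL1⟩ := exists_nat_ge (2 * K / ε)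
  refine ⟨L1, fun x L hx hL hinj => ?_⟩
  have h1 := h x L hx hinj
  have h2 : ∑ t ∈ range L, ind S f ε (T^[t] x) ≤ ∑ t ∈ range L, ind S f (ε / 2) (T^[t] x) := by
    refine sum_le_sum fun t _ => ?_
    unfold ind
    split_ifs with h3 h4 h4
    · exact le_rfl
    · exfalso
      apply h4
      refine ⟨h3.1, le_trans ?_ h3.2⟩
      have := log_abs_nonneg (T^[t] x)
      nlinarith
    · norm_num
    · exact le_rfl
  have h3 : 2 * K / ε ≤ L := hL1.trans (by exact_mod_cast hL)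
  rw [div_le_iff₀ hε] at h3
  linarith

/-- even and odd terms -/
lemma even_sum_traj {x : ℤ} (hx0 : x ≠ 0) (L : ℕ) :
    ∑ t ∈ range L, Real.log |(T^[t] x : ℝ)| ≤
      2 * ∑ t ∈ range L, (if T^[t] x % 2 = 0 then 0 else Real.log |(T^[t] x : ℝ)|) + L +
        Real.log |(x : ℝ)| ^ 2 := by
  have hlog2 : 0 < Real.log 2 := Real.log_pos (by norm_num)
  have hlog2' : 1 / 2 < Real.log 2 := by linarith [Real.log_two_gt_d9]
  have hlog21 : Real.log 2 ≤ 1 := by linarith [Real.log_two_lt_d9]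
  set ℓ : ℕ → ℝ := fun t => Real.log |(T^[t] x : ℝ)| with hℓ
  have h1 : ∑ t ∈ range L, (ℓ (t + 1) ^ 2 - ℓ t ^ 2) = ℓ L ^ 2 - ℓ 0 ^ 2 := by
    rw [sum_range_sub (fun t => ℓ t ^ 2) L]
  have h2 : ∀ t ∈ range L, ℓ (t + 1) ^ 2 - ℓ t ^ 2 ≤
      2 * Real.log 2 * (2 * (if T^[t] x % 2 = 0 then 0 else ℓ t) - ℓ t) + Real.log 2 ^ 2 := by
    intro t _
    have hy0 : T^[t] x ≠ 0 := iter_ne hx0 t
    have hy1 : T^[t + 1] x ≠ 0 := iter_ne hx0 (t + 1)
    have hyR : (0 : ℝ) < |(T^[t] x : ℝ)| := abs_pos.2 (by exact_mod_cast hy0)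
    have hyR1 : (0 : ℝ) < |(T^[t + 1] x : ℝ)| := abs_pos.2 (by exact_mod_cast hy1)
    have hs : T^[t + 1] x = T (T^[t] x) := Function.iterate_succ_apply' _ _ _
    have hnn : 0 ≤ ℓ (t + 1) := log_abs_nonneg _
    have hnn0 : 0 ≤ ℓ t := log_abs_nonneg _
    split_ifs with hev
    · have h3 := two_T (T^[t] x)
      rw [if_pos hev, ← hs] at h3
      have h4 : |(T^[t] x : ℝ)| = 2 * |(T^[t + 1] x : ℝ)| := by
        have : (T^[t] x : ℝ) = 2 * (T^[t + 1] x : ℝ) := by exact_mod_cast h3.symm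
        rw [this, abs_mul]; norm_num
      have h5 : ℓ t = Real.log 2 + ℓ (t + 1) := by
        simp only [hℓ]
        rw [h4, Real.log_mul (by norm_num) hyR1.ne']
      have h6 : ℓ (t + 1) = ℓ t - Real.log 2 := by linarith
      rw [h6]
      nlinarith
    · have h3 : |(T^[t + 1] x : ℝ)| ≤ 2 * |(T^[t] x : ℝ)| := by
        rw [hs]; exact_mod_cast abs_T_le (T^[t] x)
      have h4 : ℓ (t + 1) ≤ Real.log 2 + ℓ t := by
        simp only [hℓ]
        rw [← Real.log_mul (by norm_num) hyR.ne']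
        exact Real.log_le_log hyR1 h3
      nlinarith
  have h3 := sum_le_sum h2
  rw [h1, sum_add_distrib, ← mul_sum, sum_sub_distrib, ← mul_sum, sum_const, card_range,
    nsmul_eq_mul] at h3
  have h0 : ℓ 0 = Real.log |(x : ℝ)| := rfl
  have hL0 : 0 ≤ ℓ L ^ 2 := sq_nonneg _
  rw [h0] at h3
  set B := ∑ t ∈ range L, ℓ t
  set O := ∑ t ∈ range L, (if T^[t] x % 2 = 0 then 0 else ℓ t)
  set Q := Real.log |(x : ℝ)| ^ 2
  have hQ : 0 ≤ Q := sq_nonneg _
  have hLR : (0 : ℝ) ≤ L := Nat.cast_nonneg L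
  have h4 : 2 * Real.log 2 * (B - 2 * O) ≤ 2 * Real.log 2 * (L + Q) := by
    have h5 : (L : ℝ) * Real.log 2 ^ 2 ≤ 2 * Real.log 2 * L := by
      have : Real.log 2 ^ 2 ≤ 2 * Real.log 2 := by nlinarith
      nlinarith
    have h6 : Q ≤ 2 * Real.log 2 * Q := by nlinarith
    nlinarith
  have h5 := le_of_mul_le_mul_left h4 (by positivity)
  linarith

/-- sums over pieces longer than the square of the logarithm, compared with the odd terms -/
theorem long_traj (hS : ∀ p ∈ S, p.Prime) {f : ℤ[X]} (hf : f ≠ 0) {ε : ℝ} (hε : 0 < ε) :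
    ∃ (N : ℝ), ∀ (x : ℤ) (L : ℕ), x ≠ 0 → N ≤ Real.log |(x : ℝ)| → Real.log |(x : ℝ)| ^ 2 ≤ L →
      Set.InjOn (fun i => T^[i] x) (range L : Finset ℕ) →
      ∑ t ∈ range L, phi S f (T^[t] x) ≤
        ε * ∑ t ∈ range L, (if T^[t] x % 2 = 0 then 0 else Real.log |(T^[t] x : ℝ)|) := by
  obtain ⟨N, L1, h⟩ := all_traj hS hf (ε := ε / 4) (by positivity)
  obtain ⟨N2, hN2⟩ := large_mean_traj 4
  refine ⟨max (max N N2) (L1 + 1), fun x L hx hNx hL hinj => ?_⟩
  have hNx1 : (L1 : ℝ) + 1 ≤ Real.log |(x : ℝ)| := (le_max_right _ _).trans hNx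
  have hL1 : L1 ≤ L := by
    have h1 : (L1 : ℝ) ≤ L := by nlinarith [Nat.cast_nonneg (α := ℝ) L1]
    exact_mod_cast h1
  have h1 := h x L hx (((le_max_left _ _).trans (le_max_left _ _)).trans hNx) hL1 hinj
  have h2 := hN2 x L hx (((le_max_right _ _).trans (le_max_left _ _)).trans hNx) hinj
  have h3 := even_sum_traj hx L
  set B := ∑ t ∈ range L, Real.log |(T^[t] x : ℝ)|
  set O := ∑ t ∈ range L, (if T^[t] x % 2 = 0 then 0 else Real.log |(T^[t] x : ℝ)|)
  have h4 : B ≤ 4 * O := by linarith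
  nlinarith

end Pool.Agent.V5helper76.SP
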